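import Pool.Agent.H684R3.FinalP
import Pool.Agent.H312R2.RG.Fin

set_option autoImplicit false

/-!
# Blocks of `k` consecutive primes with prescribed patterns, at every scale up to the record scale

`f(X) = log X (log₂ X)² log₄ X / (log₃ X)²` is the size of the largest gaps known to occur below `X`.

For `k = 2`, `δ = 1` the theorem says: a positive proportion of all integers `h ≤ y` are equal to at least
`X^(7/8)` gaps between consecutive primes of `(X, 4X]`, for every `y` between `C log log X` and `c₀ f(X)`.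
For `y = c₀ f(X)` it says (with Chebyshev's bound for the number of primes) that among any `K = K(k)`
primes of `(log X, c₀ f(X)]` there are `k` with the pattern of `X^(7/8)` blocks of `k` consecutive primes.

Authors: helper684 (this theorem). It rests on TEAM RG's Maynard-Tao theorem inside the record windows
(helpers 312, 256, 410, 398, 378, 273, 909, 898, 935, 473, 778, 777, 488, 913, 386), on the tuple bounds of
helpers 312 and 646 and on helper923's prime number theorem.
-/

open Filter

namespace Pool.Agent.Results.MP_3bc45c_nt.GapSizes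

/-- `f(X) = log X (log₂ X)² log₄ X / (log₃ X)²` (iterated natural logarithms). -/
noncomputable def f (x : ℝ) : ℝ :=
  Real.log x * (Real.log (Real.log x)) ^ 2 * Real.log (Real.log (Real.log (Real.log x))) /
    (Real.log (Real.log (Real.log x))) ^ 2

open Classical in
/-- The set of the primes `p` with `log X < p ≤ c f(X)`. -/
noncomputable def window (c X : ℝ) : Finset ℕ :=
  (Finset.Icc 1 ⌊c * f X⌋₊).filter (fun p : ℕ => p.Prime ∧ Real.log X < p)

open Classical in
/-- The number of the indices `n` with `X < p_n`, `p_(n+k-1) ≤ 4 X` and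
`{p_n, ..., p_(n+k-1)} = p_n + H`, where `p_n` is the prime with index `n` (counted from `0`). -/
noncomputable def occ (k : ℕ) (X : ℝ) (H : Finset ℕ) : ℕ :=
  ((Finset.range ⌊4 * X⌋₊).filter (fun n => X < Nat.nth Nat.Prime n ∧
    (Nat.nth Nat.Prime (n + (k - 1)) : ℝ) ≤ 4 * X ∧
    (Finset.range k).image (fun j => Nat.nth Nat.Prime (n + j) - Nat.nth Nat.Prime n) = H)).card

open Classical in
/-- For every `k ≥ 2` there are `c₀, c, C > 0` such that for all large `X`, every set `A` of primes in
`(log X, c₀ f(X)]`, every `δ > 0` (it may depend on `X` and `A`) such that `A` contains at least the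
proportion `δ` of these primes, and every `y` with `(C / δ) log log X ≤ y ≤ c₀ f(X)`, at least
`c δ^(2k) y^(k-1)` of the `k`-element sets `H ⊆ {0, ..., ⌊y⌋}` with `0 ∈ H` have a translate in `A` and
are the pattern of at least `X^(7/8)` blocks of `k` consecutive primes of `(X, 4X]`. -/
theorem result (k : ℕ) (hk : 2 ≤ k) : ∃ c₀ c C : ℝ, 0 < c₀ ∧ 0 < c ∧ 0 < C ∧
    ∀ᶠ X : ℝ in atTop, ∀ A : Finset ℕ, A ⊆ window c₀ X →
      ∀ δ : ℝ, 0 < δ → δ * (window c₀ X).card ≤ A.card →
      ∀ y : ℝ, C / δ * Real.log (Real.log X) ≤ y → y ≤ c₀ * f X →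
      c * δ ^ (2 * k) * y ^ (k - 1) ≤
        (((Finset.powersetCard k (Finset.range (⌊y⌋₊ + 1))).filter
          (fun H => 0 ∈ H ∧ (∃ a, ∀ h ∈ H, a + h ∈ A) ∧ X ^ (7 / 8 : ℝ) ≤ occ k X H)).card : ℝ) := by
  obtain ⟨m, rfl⟩ : ∃ m, k = m + 1 := ⟨k - 1, by omega⟩
  obtain ⟨c₀, c, C, hc₀, hc, hC, h1⟩ :=
    Pool.Agent.H684R3.density_ofP Pool.Agent.H312R2.RG.mtrg m (by omega)
  refine ⟨c₀, c, C, hc₀, hc, hC, ?_⟩
  filter_upwards [h1] with X h1 A hA δ hδ hAδ y hy1 hy2
  rw [Nat.add_sub_cancel]
  refine (h1 A hA δ hδ hAδ y hy1 hy2).trans ?_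
  exact_mod_cast Finset.card_le_card (fun H hH => by
    rw [Finset.mem_filter, Pool.Agent.H312R2.mem_base] at hH
    rw [Finset.mem_filter, Finset.mem_powersetCard]
    exact ⟨hH.1.1, hH.1.2, hH.2.1, hH.2.2⟩)

end Pool.Agent.Results.MP_3bc45c_nt.GapSizes
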