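import Pool.Agent.H378R2.RM.ApMain

set_option autoImplicit false

/-! # Record gaps between primes in arithmetic progressions, uniformly in modulus and location

For `d ≤ x ^ (1 - δ)` (with few large prime factors) every interval `[a, a + x]` contains a
subinterval of length `c φ(d) log x (log₂ x)² log₄ x / (log₃ x)²` with no prime `≡ a (mod d)`. -/

namespace Pool.Agent.Results.MP_3bc45c_nt.ProgressionGaps

theorem result : ∀ δ A : ℝ, 0 < δ → δ < 1 → 0 ≤ A → ∃ c : ℝ, 0 < c ∧ ∃ x₀ : ℝ, ∀ x : ℝ, x₀ ≤ x →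
    ∀ d : ℕ, 1 ≤ d → (d : ℝ) ≤ x ^ (1 - δ) →
    (∑ p ∈ d.primeFactors with
      Real.exp (Real.log (Real.log x) * Real.log (Real.log (Real.log (Real.log x))) /
        (20 * Real.log (Real.log (Real.log x)))) < ((p : ℕ) : ℝ), 1 / ((p : ℕ) : ℝ)) ≤
      A / Real.log (Real.log x) →
    ∀ a : ℕ, ∃ m : ℕ, m ≡ a [MOD d] ∧ (a : ℝ) + x / 4 < m ∧
      (m : ℝ) + c * ((Nat.totient d : ℝ) * (Real.log x * (Real.log (Real.log x)) ^ 2 *
        Real.log (Real.log (Real.log (Real.log x))) / (Real.log (Real.log (Real.log x))) ^ 2)) ≤ a + x ∧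
      ∀ p : ℕ, p.Prime → p ≡ a [MOD d] → m < p →
        (m : ℝ) + c * ((Nat.totient d : ℝ) * (Real.log x * (Real.log (Real.log x)) ^ 2 *
          Real.log (Real.log (Real.log (Real.log x))) / (Real.log (Real.log (Real.log x))) ^ 2)) < p := by
  intro δ A hδ hδ1 hA
  obtain ⟨c, hc, x₀, h⟩ := Pool.Agent.H378R2.RM.ap_core
    Pool.Agent.H256R2.SC.covering δ A hδ hδ1 hA
  refine ⟨c, hc, x₀, fun x hx d hd hdx hcond a => ?_⟩
  obtain ⟨n, hn1, hn2, hn3⟩ := h x hx d hd hdx (by convert hcond) a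
  have hF : Pool.Agent.H378R2.RM.FF (Real.log x) = Real.log x * (Real.log (Real.log x)) ^ 2 *
      Real.log (Real.log (Real.log (Real.log x))) / (Real.log (Real.log (Real.log x))) ^ 2 := rfl
  rw [hF] at hn2 hn3
  set F := Real.log x * (Real.log (Real.log x)) ^ 2 *
      Real.log (Real.log (Real.log (Real.log x))) / (Real.log (Real.log (Real.log x))) ^ 2 with hFd
  refine ⟨a + d * n, ?_, ?_, ?_, ?_⟩
  · exact (Nat.modEq_iff_dvd' (Nat.le_add_right _ _)).2 (by simp) |>.symm
  · push_cast
    linarith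
  · push_cast
    linarith
  · intro p hp hpa hmp
    by_contra hcon
    push Not at hcon
    have h1 : d ∣ p - (a + d * n) := by
      have h2 : a + d * n ≡ p [MOD d] := by
        refine Nat.ModEq.trans ?_ hpa.symm
        exact (Nat.modEq_iff_dvd' (Nat.le_add_right _ _)).2 (by simp) |>.symm
      exact (Nat.modEq_iff_dvd' hmp.le).1 h2
    obtain ⟨k, hk⟩ := h1
    have hpk : p = a + d * (n + k) := by
      have : p = (a + d * n) + d * k := by omega
      rw [this]; ring
    have hk1 : 1 ≤ k := by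
      rcases Nat.eq_zero_or_pos k with h0 | h0
      · subst h0
        simp at hpk
        omega
      · exact h0
    refine hn3 k hk1 ?_ (hpk ▸ hp)
    have h3 : (p : ℝ) = a + d * n + d * k := by
      rw [hpk]; push_cast; ring
    push_cast at hcon
    rw [h3] at hcon
    nlinarith

end Pool.Agent.Results.MP_3bc45c_nt.ProgressionGaps
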