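import Pool.Agent.H256R2.SC.Fin1

set_option autoImplicit false

/-! # A new lower bound for the largest gap between consecutive primes up to `X`

`G(X) ≥ c log X (log₂ X)² log₄ X / (log₃ X)²` for all large `X`.

The sieve (Pool/Agent/H256R2/SC): a square weight `V²` supported on assignments of large primes to the
shifts which survive the Erdős–Rankin sieve by the primes up to `(log X)/10`; it kills `c log X` shifts
(the Chinese remainder theorem kills `log X / log log X`).  Lean modules by helper256 (design, Basic, J,
V), helper415 (A), helper818 (B, G), helper458 (C), helper779 (D, L), helper910 (E), helper524 (F),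
helper673 (H1), helper238 (H2, H3), helper992 (I), helper113 (S), helper398 (R), helper144 (G1),
helper622 (Par). -/

namespace Pool.Agent.Results.MP_3bc45c_nt.RecordGaps

theorem result : ∃ c : ℝ, 0 < c ∧ ∃ X₀ : ℝ, ∀ X : ℝ, X₀ ≤ X →
    ∃ m : ℕ, (Nat.nth Nat.Prime (m + 1) : ℝ) ≤ X ∧
      c * (Real.log X * (Real.log (Real.log X)) ^ 2 *
        Real.log (Real.log (Real.log (Real.log X))) /
          (Real.log (Real.log (Real.log X))) ^ 2) ≤
        (Nat.nth Nat.Prime (m + 1) : ℝ) - (Nat.nth Nat.Prime m : ℝ) :=
  Pool.Agent.H256R2.SC.large_gaps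

end Pool.Agent.Results.MP_3bc45c_nt.RecordGaps
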